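import Mathlib

set_option autoImplicit false

/-!
# Graphs of path-width two have unbounded Thue choice number

The graph: vertices `g 0, ..., g (n-1)`, and for each `j` a set of vertices `x j T` joined to `g j` and `g (j+1)`,
one for every `κ`-subset `T` of a set `U` of `κ n` colors. The lists of the `g i` partition `U` and the list of
`x j T` is `T`. In a coloring from the lists, all but `κ - 1` colors of `U` occur among the `x j T`, for every `j`.
If `s ≥ 1` and the color of `g i` occurred at `x j` whenever `a ≤ i, j ≤ a + 2 s` and `j = i + s` or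
`i = j + s + 1`, then there would be a repetition of length `2 (2 s + 1)` that starts at `g a`. So for every `s` there are
at least about `n / (2 s + 1)` pairs `(i, j)` such that the color of `g i` does not occur at `x j`. The sum over `s`
exceeds `n (κ - 1)` if `n` is large.
-/

namespace Pool.Agent.U395.PwTwo

/-- a walk from a sequence of vertices -/
lemma exists_walk {V : Type} (G : SimpleGraph V) (w : ℕ → V) : ∀ L : ℕ,
    (∀ i, i < L → G.Adj (w i) (w (i + 1))) →
    ∃ p : G.Walk (w 0) (w L), p.length = L ∧ ∀ i, i ≤ L → p.getVert i = w i := by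
  intro L
  induction L with
  | zero =>
    intro _
    exact ⟨SimpleGraph.Walk.nil, rfl, fun i hi => by
      have : i = 0 := by omega
      subst this; rfl⟩
  | succ L ih =>
    intro h
    obtain ⟨p, hp, hq⟩ := ih (fun i hi => h i (by omega))
    refine ⟨p.concat (h L (by omega)), by simp [hp], ?_⟩
    intro i hi
    rcases Nat.lt_or_ge i (L + 1) with h1 | h1
    · rw [SimpleGraph.Walk.concat_eq_append, SimpleGraph.Walk.getVert_append]
      split_ifs with h2
      · exact hq i (by omega)
      · have h3 : i = L := by omega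
        subst h3
        rw [hp]
        simp
    · have h3 : i = L + 1 := by omega
      subst h3
      have h4 : ∀ {a b : V} (q : G.Walk a b) (m : ℕ), q.length = m → q.getVert m = b := by
        intro a b q m hm
        subst hm
        exact SimpleGraph.Walk.getVert_length _
      exact h4 _ _ (by simp [hp])

section

variable (κ n : ℕ)

/-- the `κ`-subsets of the set of all colors -/
abbrev X : Type := {T : Finset ℕ // T ∈ (Finset.range (κ * n)).powersetCard κ}

/-- the vertices: `(i, none)` is `g i`, `(j, some T)` is `x j T` -/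
abbrev W : Type := Fin n × Option (X κ n)

/-- the relation: `x j T` is related to `g j` and `g (j + 1)` -/
def rel : W κ n → W κ n → Prop
  | (i, none), (j, some _) => i.val = j.val ∨ i.val = j.val + 1
  | (j, some _), (i, none) => i.val = j.val ∨ i.val = j.val + 1
  | _, _ => False

/-- the graph -/
def G : SimpleGraph (W κ n) where
  Adj := rel κ n
  symm := ⟨by
    rintro ⟨i, _ | T⟩ ⟨j, _ | S⟩ h
    · exact h
    · exact h
    · exact h
    · exact h⟩
  loopless := ⟨by
    rintro ⟨i, _ | T⟩ h <;> simp [rel] at h⟩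

/-- the lists -/
def lists : W κ n → Finset ℕ
  | (i, none) => Finset.Ico (κ * i.val) (κ * (i.val + 1))
  | (_, some T) => T.1

lemma card_lists (v : W κ n) : (lists κ n v).card = κ := by
  rcases v with ⟨i, _ | T⟩
  · simp only [lists, Nat.card_Ico]
    rw [Nat.mul_add]; omega
  · simp only [lists]
    exact (Finset.mem_powersetCard.mp T.2).2

/-- the path-decomposition -/
lemma pathdec (hn : 1 ≤ n) : ∃ B : ℕ → Finset (W κ n),
    (∀ i, (B i).card ≤ 3) ∧
    (∀ v : W κ n, ∃ i, v ∈ B i) ∧
    (∀ u v : W κ n, (G κ n).Adj u v → ∃ i, u ∈ B i ∧ v ∈ B i) ∧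
    (∀ (v : W κ n) (i j k : ℕ), i ≤ j → j ≤ k → v ∈ B i → v ∈ B k → v ∈ B j) := by
  classical
  obtain ⟨m, hm⟩ : ∃ m, m = Fintype.card (X κ n) := ⟨_, rfl⟩
  have hm0 : 0 < m := by
    rw [hm, Fintype.card_coe, Finset.card_powersetCard, Finset.card_range]
    exact Nat.choose_pos (Nat.le_mul_of_pos_right κ hn)
  have e : Fin m ≃ X κ n := (Fintype.equivFinOfCardEq hm.symm).symm
  let g : ℕ → W κ n := fun i => (⟨min i (n - 1), by omega⟩, none)
  let x : ℕ → W κ n := fun i => (⟨min (i / m) (n - 1), by omega⟩, some (e ⟨i % m, Nat.mod_lt _ hm0⟩))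
  let B : ℕ → Finset (W κ n) := fun i =>
    if i / m < n then {g (i / m), g (i / m + 1), x i} else ∅
  have hB1 : ∀ (i : Fin n) (t : ℕ), ((i, none) : W κ n) ∈ B t ↔
      t / m < n ∧ (i.val = t / m ∨ i.val = t / m + 1) := by
    intro i t
    have hi := i.2
    by_cases ht : t / m < n
    · simp only [B, ht, if_true, Finset.mem_insert, Finset.mem_singleton, g, x, Prod.mk.injEq,
        Fin.ext_iff, reduceCtorEq, and_false, or_false, and_true, true_and]
      omega
    · simp [B, ht]
  have hB2 : ∀ (j : Fin n) (T : X κ n) (t : ℕ), ((j, some T) : W κ n) ∈ B t ↔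
      (j.val = t / m ∧ (e.symm T).val = t % m) := by
    intro j T t
    have hj := j.2
    by_cases ht : t / m < n
    · simp only [B, ht, if_true, Finset.mem_insert, Finset.mem_singleton, g, x, Prod.mk.injEq,
        Fin.ext_iff, reduceCtorEq, and_false, false_or, Option.some.injEq]
      constructor
      · rintro ⟨h1, h2⟩
        refine ⟨by omega, ?_⟩
        rw [h2]
        simp
      · rintro ⟨h1, h2⟩
        refine ⟨by omega, ?_⟩
        rw [← Equiv.symm_apply_eq]
        exact Fin.ext h2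
    · simp only [B, ht, if_false, Finset.notMem_empty, false_iff]
      rintro ⟨h1, _⟩
      omega
  have hdiv : ∀ (j : ℕ) (r : ℕ), r < m → (j * m + r) / m = j ∧ (j * m + r) % m = r := by
    intro j r hr
    constructor
    · rw [Nat.mul_comm, Nat.mul_add_div hm0, Nat.div_eq_of_lt hr, Nat.add_zero]
    · rw [Nat.mul_comm, Nat.mul_add_mod, Nat.mod_eq_of_lt hr]
  refine ⟨B, ?_, ?_, ?_, ?_⟩
  · intro i
    by_cases h : i / m < n
    · simp only [B, h, if_true]
      exact Finset.card_le_three
    · simp [B, h]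
  · rintro ⟨i, _ | T⟩
    · refine ⟨i.val * m + 0, ?_⟩
      rw [hB1, (hdiv i.val 0 hm0).1]
      exact ⟨i.2, Or.inl rfl⟩
    · refine ⟨i.val * m + (e.symm T).val, ?_⟩
      rw [hB2, (hdiv i.val _ (e.symm T).2).1, (hdiv i.val _ (e.symm T).2).2]
      exact ⟨rfl, rfl⟩
  · rintro ⟨i, _ | T⟩ ⟨j, _ | S⟩ h
    · simp [G, rel] at h
    · simp only [G, rel] at h
      refine ⟨j.val * m + (e.symm S).val, ?_, ?_⟩
      · rw [hB1, (hdiv j.val _ (e.symm S).2).1]
        exact ⟨j.2, h⟩
      · rw [hB2, (hdiv j.val _ (e.symm S).2).1, (hdiv j.val _ (e.symm S).2).2]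
        exact ⟨rfl, rfl⟩
    · simp only [G, rel] at h
      refine ⟨i.val * m + (e.symm T).val, ?_, ?_⟩
      · rw [hB2, (hdiv i.val _ (e.symm T).2).1, (hdiv i.val _ (e.symm T).2).2]
        exact ⟨rfl, rfl⟩
      · rw [hB1, (hdiv i.val _ (e.symm T).2).1]
        exact ⟨i.2, h⟩
    · simp [G, rel] at h
  · rintro ⟨v, _ | T⟩ i j k hij hjk h1 h2
    · rw [hB1] at h1 h2 ⊢
      have h3 : i / m ≤ j / m := Nat.div_le_div_right hij
      have h4 : j / m ≤ k / m := Nat.div_le_div_right hjk
      omega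
    · rw [hB2] at h1 h2 ⊢
      have h3 : i = k := by
        rw [← Nat.div_add_mod i m, ← Nat.div_add_mod k m, ← h1.1, ← h1.2, ← h2.1, ← h2.2]
      have h4 : j = i := by omega
      rw [h4]; exact h1

variable {κ n}

/-- the color of `g i` does not occur at any `x j T` -/
def Avoid (f : W κ n → ℕ) (j i : Fin n) : Prop := ∀ T : X κ n, f (j, some T) ≠ f (i, none)

lemma div_color (hκ : 0 < κ) {f : W κ n → ℕ} (hf : ∀ v, f v ∈ lists κ n v) (i : Fin n) :
    f (i, none) / κ = i.val := by
  have h := hf (i, none)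
  simp only [lists, Finset.mem_Ico] at h
  rw [Nat.div_eq_iff hκ]
  have h2 : κ * (i.val + 1) = κ * i.val + κ := by ring
  rw [h2] at h
  have h3 : i.val * κ = κ * i.val := Nat.mul_comm _ _
  omega

lemma color_inj (hκ : 0 < κ) {f : W κ n → ℕ} (hf : ∀ v, f v ∈ lists κ n v) :
    Function.Injective (fun i : Fin n => f (i, none)) := by
  intro i i' h
  simp only at h
  have h1 := div_color hκ hf i
  have h2 := div_color hκ hf i'
  rw [h] at h1
  exact Fin.ext (h1.symm.trans h2)

/-- at most `κ - 1` of the colors of the `g i` are avoided by the `x j` -/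
lemma card_avoid (hκ : 0 < κ) {f : W κ n → ℕ} (hf : ∀ v, f v ∈ lists κ n v) (j : Fin n)
    (F : Finset (Fin n)) (hF : ∀ i ∈ F, Avoid f j i) : F.card < κ := by
  classical
  by_contra hcon
  push Not at hcon
  obtain ⟨S, hS1, hS2⟩ := Finset.exists_subset_card_eq hcon
  have hT : S.image (fun i : Fin n => f (i, none)) ∈ (Finset.range (κ * n)).powersetCard κ := by
    rw [Finset.mem_powersetCard]
    constructor
    · intro y hy
      rw [Finset.mem_image] at hy
      obtain ⟨i, _, rfl⟩ := hy
      have h := hf (i, none)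
      simp only [lists, Finset.mem_Ico] at h
      rw [Finset.mem_range]
      have h2 : κ * (i.val + 1) ≤ κ * n := Nat.mul_le_mul_left _ i.2
      omega
    · rw [Finset.card_image_of_injective _ (color_inj hκ hf), hS2]
  have h := hf (j, some ⟨_, hT⟩)
  simp only [lists] at h
  rw [Finset.mem_image] at h
  obtain ⟨i, hi, he⟩ := h
  exact hF i (hS1 hi) ⟨_, hT⟩ he.symm

/-- for every window of length `2 s + 1` there is an avoided pair -/
lemma window {f : W κ n → ℕ}
    (hrep : ∀ (u w : W κ n) (p : (G κ n).Walk u w), p.IsPath →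
      ∀ k : ℕ, 1 ≤ k → p.length + 1 = 2 * k →
        ¬ (∀ i : ℕ, i < k → f (p.getVert i) = f (p.getVert (i + k))))
    (a s : ℕ) (has : a + 2 * s < n) :
    ∃ j i : Fin n, Avoid f j i ∧ a ≤ j.val ∧ j.val ≤ a + 2 * s ∧
      (j.val = i.val + s ∨ i.val = j.val + s + 1) := by
  classical
  by_contra hcon
  push Not at hcon
  have key : ∀ q : ℕ, ∃ T : X κ n, ∀ hq : q ≤ 2 * s,
      (∀ h : q < s, f (⟨a + q, by omega⟩, some T) = f (⟨a + q + s + 1, by omega⟩, none)) ∧
      (∀ h : s ≤ q, f (⟨a + q, by omega⟩, some T) = f (⟨a + q - s, by omega⟩, none)) := by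
    intro q
    by_cases hq : q ≤ 2 * s
    · by_cases h : q < s
      · have h1 : ¬ Avoid f (⟨a + q, by omega⟩ : Fin n) ⟨a + q + s + 1, by omega⟩ := by
          intro hA
          have := hcon _ _ hA (by simp) (by simp only; omega)
          simp at this
        unfold Avoid at h1
        push Not at h1
        obtain ⟨T, hT⟩ := h1
        exact ⟨T, fun _ => ⟨fun _ => hT, fun h' => absurd h' (by omega)⟩⟩
      · have h1 : ¬ Avoid f (⟨a + q, by omega⟩ : Fin n) ⟨a + q - s, by omega⟩ := by
          intro hA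
          have h2 := hcon _ _ hA (by simp) (by simp only; omega)
          have h3 := h2.1
          simp only at h3
          omega
        unfold Avoid at h1
        push Not at h1
        obtain ⟨T, hT⟩ := h1
        exact ⟨T, fun _ => ⟨fun h' => absurd h' (by omega), fun _ => hT⟩⟩
    · have h0 : ¬ Avoid f (⟨a, by omega⟩ : Fin n) ⟨a, by omega⟩ ∨ Nonempty (X κ n) := by
        by_cases hne : Nonempty (X κ n)
        · exact Or.inr hne
        · left
          intro hA
          have h1 : Avoid f (⟨a + s, by omega⟩ : Fin n) ⟨a, by omega⟩ := by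
            intro T
            exact absurd ⟨T⟩ hne
          have h2 := hcon _ _ h1 (by simp) (by simp only; omega)
          exact h2.1 rfl
      rcases h0 with h0 | h0
      · unfold Avoid at h0
        push Not at h0
        obtain ⟨T, _⟩ := h0
        exact ⟨T, fun h => absurd h hq⟩
      · exact ⟨Classical.choice h0, fun h => absurd h hq⟩
  choose T hT using key
  -- the sequence of vertices
  have hn0 : 0 < n := by omega
  let v : ℕ → W κ n := fun t =>
    (⟨min (a + t / 2) (n - 1), by omega⟩, if t % 2 = 0 then none else some (T (t / 2)))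
  have hv0 : ∀ i, i ≤ 2 * s → ∀ (h : a + i < n), v (2 * i) = (⟨a + i, h⟩, none) := by
    intro i hi h
    simp only [v, Prod.mk.injEq, Fin.mk.injEq]
    constructor
    · omega
    · rw [if_pos (by omega)]
  have hv1 : ∀ i, i ≤ 2 * s → ∀ (h : a + i < n), v (2 * i + 1) = (⟨a + i, h⟩, some (T i)) := by
    intro i hi h
    simp only [v, Prod.mk.injEq, Fin.mk.injEq]
    constructor
    · omega
    · rw [if_neg (by omega)]
      congr 2
      omega
  have hadj : ∀ t, t < 4 * s + 1 → (G κ n).Adj (v t) (v (t + 1)) := by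
    intro t ht
    rcases Nat.even_or_odd' t with ⟨i, hi | hi⟩
    · subst hi
      rw [hv0 i (by omega) (by omega), hv1 i (by omega) (by omega)]
      simp [G, rel]
    · subst hi
      rw [show 2 * i + 1 + 1 = 2 * (i + 1) by ring, hv0 (i + 1) (by omega) (by omega),
        hv1 i (by omega) (by omega)]
      simp only [G, rel]
      right; omega
  obtain ⟨p, hp1, hp2⟩ := exists_walk (G κ n) v (4 * s + 1) hadj
  have hpath : p.IsPath := by
    rw [← SimpleGraph.Walk.IsPath.getVert_injOn_iff]
    intro t ht t' ht' h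
    have ht1 : t ≤ 4 * s + 1 := hp1 ▸ ht
    have ht1' : t' ≤ 4 * s + 1 := hp1 ▸ ht'
    rw [hp2 t ht1, hp2 t' ht1'] at h
    simp only [v, Prod.mk.injEq, Fin.mk.injEq] at h
    obtain ⟨h1, h2⟩ := h
    split_ifs at h2 with h3 h4 <;> omega
  refine hrep _ _ p hpath (2 * s + 1) (by omega) (by omega) ?_
  intro q hq
  rw [hp2 q (by omega), hp2 (q + (2 * s + 1)) (by omega)]
  rcases Nat.even_or_odd' q with ⟨i, hi | hi⟩
  · subst hi
    rw [show 2 * i + (2 * s + 1) = 2 * (i + s) + 1 by ring, hv0 i (by omega) (by omega),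
      hv1 (i + s) (by omega) (by omega)]
    have h := (hT (i + s) (by omega)).2 (by omega)
    have e : (⟨a + (i + s) - s, by omega⟩ : Fin n) = ⟨a + i, by omega⟩ :=
      Fin.ext (by simp only; omega)
    rw [e] at h
    exact h.symm
  · subst hi
    rw [show 2 * i + 1 + (2 * s + 1) = 2 * (i + s + 1) by ring, hv1 i (by omega) (by omega),
      hv0 (i + s + 1) (by omega) (by omega)]
    have h := (hT i (by omega)).1 (by omega)
    have e : (⟨a + i + s + 1, by omega⟩ : Fin n) = ⟨a + (i + s + 1), by omega⟩ :=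
      Fin.ext (by simp only; omega)
    rw [e] at h
    exact h

/-- the main counting argument -/
theorem main (hκ : 1 ≤ κ) (hn : n = 2 ^ (4 * κ)) (f : W κ n → ℕ) (hf : ∀ v, f v ∈ lists κ n v)
    (hrep : ∀ (u w : W κ n) (p : (G κ n).Walk u w), p.IsPath →
      ∀ k : ℕ, 1 ≤ k → p.length + 1 = 2 * k →
        ¬ (∀ i : ℕ, i < k → f (p.getVert i) = f (p.getVert (i + k)))) : False := by
  classical
  -- the number of avoided pairs
  obtain ⟨P, hP⟩ : ∃ P : Finset (Fin n × Fin n), P = Finset.univ.filter (fun q => Avoid f q.1 q.2) :=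
    ⟨_, rfl⟩
  have hPcard : P.card ≤ n * (κ - 1) := by
    have h1 : P.card = ∑ j : Fin n, (P.filter (fun q => q.1 = j)).card :=
      Finset.card_eq_sum_card_fiberwise (fun q _ => Finset.mem_univ q.1)
    rw [h1]
    calc ∑ j : Fin n, (P.filter (fun q => q.1 = j)).card ≤ ∑ _j : Fin n, (κ - 1) := by
          refine Finset.sum_le_sum fun j _ => ?_
          have h2 : (P.filter (fun q => q.1 = j)).card =
              ((P.filter (fun q => q.1 = j)).image Prod.snd).card := by
            rw [Finset.card_image_of_injOn]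
            intro q hq q' hq' h
            simp only [Finset.coe_filter, Set.mem_setOf_eq] at hq hq'
            exact Prod.ext (hq.2.trans hq'.2.symm) h
          rw [h2]
          have h3 := card_avoid (by omega) hf j ((P.filter (fun q => q.1 = j)).image Prod.snd) (by
            intro i hi
            rw [Finset.mem_image] at hi
            obtain ⟨q, hq, rfl⟩ := hi
            rw [Finset.mem_filter, hP, Finset.mem_filter] at hq
            rw [← hq.2]
            exact hq.1.2)
          omega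
      _ = n * (κ - 1) := by simp
  -- the windows
  obtain ⟨D, hD⟩ : ∃ D : Finset (ℕ × ℕ), D = (Finset.Ico 1 (4 * κ)) ×ˢ (Finset.range (2 ^ (4 * κ - 2))) :=
    ⟨_, rfl⟩
  have hwin : ∀ d : ℕ × ℕ, ∃ q : Fin n × Fin n, d ∈ D → q ∈ P ∧
      q.1.val / 2 ^ (d.1 + 1) = d.2 / 2 ^ (d.1 - 1) ∧
      (q.1.val = q.2.val + (2 ^ (d.1 - 1) + d.2 % 2 ^ (d.1 - 1)) ∨
        q.2.val = q.1.val + (2 ^ (d.1 - 1) + d.2 % 2 ^ (d.1 - 1)) + 1) := by
    rintro ⟨r, q⟩
    by_cases hd : (r, q) ∈ D
    · rw [hD, Finset.mem_product, Finset.mem_Ico, Finset.mem_range] at hd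
      obtain ⟨⟨hr1, hr2⟩, hq⟩ := hd
      simp only at hr1 hr2 hq
      obtain ⟨s, hs⟩ : ∃ s, s = 2 ^ (r - 1) + q % 2 ^ (r - 1) := ⟨_, rfl⟩
      obtain ⟨b, hb⟩ : ∃ b, b = q / 2 ^ (r - 1) := ⟨_, rfl⟩
      have hpos : 0 < 2 ^ (r - 1) := by positivity
      have hmod : q % 2 ^ (r - 1) < 2 ^ (r - 1) := Nat.mod_lt _ hpos
      have hpow : 2 ^ (r + 1) = 4 * 2 ^ (r - 1) := by
        rw [show r + 1 = 2 + (r - 1) by omega, pow_add]; norm_num
      have hs2 : 2 * s + 1 ≤ 2 ^ (r + 1) := by omega
      have hb2 : (b + 1) * 2 ^ (r + 1) ≤ n := by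
        have h1 : b < 2 ^ (4 * κ - 2 - (r - 1)) := by
          rw [hb, Nat.div_lt_iff_lt_mul hpos, ← pow_add]
          rw [show 4 * κ - 2 - (r - 1) + (r - 1) = 4 * κ - 2 by omega]
          exact hq
        calc (b + 1) * 2 ^ (r + 1) ≤ 2 ^ (4 * κ - 2 - (r - 1)) * 2 ^ (r + 1) :=
              Nat.mul_le_mul_right _ h1
          _ = n := by
              rw [← pow_add, hn]
              congr 1
              omega
      have hb3 : (b + 1) * 2 ^ (r + 1) = b * 2 ^ (r + 1) + 2 ^ (r + 1) := by ring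
      obtain ⟨j, i, h1, h2, h3, h4⟩ := window hrep (b * 2 ^ (r + 1)) s (by omega)
      refine ⟨(j, i), fun _ => ⟨?_, ?_, ?_⟩⟩
      · rw [hP, Finset.mem_filter]
        exact ⟨Finset.mem_univ _, h1⟩
      · simp only
        rw [← hb]
        rw [Nat.div_eq_iff (by positivity)]
        omega
      · simp only
        rw [← hs]
        exact h4
    · have hn0 : 0 < n := by rw [hn]; positivity
      exact ⟨(⟨0, hn0⟩, ⟨0, hn0⟩), fun h => absurd h hd⟩
  choose φ hφ using hwin
  have hcard : D.card ≤ P.card := by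
    refine Finset.card_le_card_of_injOn φ (fun d hd => (hφ d hd).1) ?_
    rintro ⟨r, q⟩ hd ⟨r', q'⟩ hd' h
    obtain ⟨_, h2, h3⟩ := hφ _ hd
    obtain ⟨_, h2', h3'⟩ := hφ _ hd'
    rw [h] at h2 h3
    have hd1 := Finset.mem_coe.mp hd
    have hd2 := Finset.mem_coe.mp hd'
    rw [hD, Finset.mem_product, Finset.mem_Ico, Finset.mem_range] at hd1 hd2
    obtain ⟨⟨hr1, hr2⟩, hq⟩ := hd1
    obtain ⟨⟨hr1', hr2'⟩, hq'⟩ := hd2
    simp only at hr1 hr2 hq hr1' hr2' hq' h2 h3 h2' h3'
    have hpos : 0 < 2 ^ (r - 1) := by positivity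
    have hmod : q % 2 ^ (r - 1) < 2 ^ (r - 1) := Nat.mod_lt _ hpos
    have hpos' : 0 < 2 ^ (r' - 1) := by positivity
    have hmod' : q' % 2 ^ (r' - 1) < 2 ^ (r' - 1) := Nat.mod_lt _ hpos'
    have hs : 2 ^ (r - 1) + q % 2 ^ (r - 1) = 2 ^ (r' - 1) + q' % 2 ^ (r' - 1) := by omega
    have hrr : r = r' := by
      have a1 : 2 ^ (r - 1) < 2 ^ (r' - 1 + 1) := by rw [pow_succ]; omega
      have a2 : 2 ^ (r' - 1) < 2 ^ (r - 1 + 1) := by rw [pow_succ]; omega
      have b1 := (Nat.pow_lt_pow_iff_right (by norm_num : 1 < 2)).mp a1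
      have b2 := (Nat.pow_lt_pow_iff_right (by norm_num : 1 < 2)).mp a2
      omega
    subst hrr
    have hqq : q % 2 ^ (r - 1) = q' % 2 ^ (r - 1) := by omega
    have hqd : q / 2 ^ (r - 1) = q' / 2 ^ (r - 1) := h2.symm.trans h2'
    have : q = q' := by rw [← Nat.div_add_mod q (2 ^ (r - 1)), ← Nat.div_add_mod q' (2 ^ (r - 1)), hqq, hqd]
    rw [this]
  have hDc : D.card = (4 * κ - 1) * 2 ^ (4 * κ - 2) := by
    rw [hD, Finset.card_product, Nat.card_Ico, Finset.card_range]
  have hn4 : n = 4 * 2 ^ (4 * κ - 2) := by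
    rw [hn, show 4 * κ = 2 + (4 * κ - 2) by omega, pow_add]
    norm_num
  have hfin : (4 * κ - 1) * 2 ^ (4 * κ - 2) ≤ 4 * 2 ^ (4 * κ - 2) * (κ - 1) := by
    rw [← hDc, ← hn4]
    exact hcard.trans hPcard
  have hpos : 0 < 2 ^ (4 * κ - 2) := by positivity
  have h5 : 4 * 2 ^ (4 * κ - 2) * (κ - 1) = (4 * (κ - 1)) * 2 ^ (4 * κ - 2) := by ring
  rw [h5] at hfin
  have h6 := Nat.le_of_mul_le_mul_right hfin hpos
  omega

end

end Pool.Agent.U395.PwTwo
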