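import Pool.Agent.TH22.UF.Reverse

/-!
# C*-tensor structures: boundedness of endomorphisms and orthonormal decompositions
-/

set_option autoImplicit false
set_option linter.unusedSectionVars false
set_option linter.unusedVariables false

open CategoryTheory CategoryTheory.Limits MonoidalCategory
open Pool.Agent.TH22.UF

namespace Pool.Agent.U395.BrUn

universe v u v' u'

section bdd

variable {D : Type u} [Category.{v} D] [Preadditive D] [Linear ℂ D] [MonoidalCategory D]
  [MonoidalPreadditive D] [MonoidalLinear ℂ D] (s : CStarTensorStructure D)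

/-- The norm of the endomorphism ring. -/
def endNorm (Z : D) : RingNorm (End Z) where
  toFun f := s.norm (X := Z) (Y := Z) f
  map_zero' := s.norm_zero' Z Z
  add_le' f g := s.norm_add_le (X := Z) (Y := Z) f g
  neg' f := by
    have h := s.norm_smul (X := Z) (Y := Z) (-1 : ℂ) f
    rw [neg_one_smul] at h
    simpa using h
  mul_le' f g := by
    have h := s.norm_comp_le (X := Z) (Y := Z) (Z := Z) g f
    rw [mul_comm]
    exact h
  eq_zero_of_map_eq_zero' f hf := s.eq_zero_of_norm (X := Z) (Y := Z) f hf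

lemma bdd_end (Z : D) (a : Z ⟶ Z) (ha : s.star a = a) :
    ∃ (K : ℝ) (g : Z ⟶ Z), (K : ℂ) • 𝟙 Z = a + g ≫ s.star g := by
  let nr : NormedRing (End Z) := RingNorm.toNormedRing (endNorm s Z)
  let sr : StarRing (End Z) :=
    { star := fun f => s.star (X := Z) (Y := Z) f
      star_involutive := fun f => s.star_star (X := Z) (Y := Z) f
      star_mul := fun f g => s.star_comp (X := Z) (Y := Z) (Z := Z) g f
      star_add := fun f g => s.star_add (X := Z) (Y := Z) f g }
  have cr : CStarRing (End Z) :=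
    { norm_mul_self_le := fun f => by
        have h := s.norm_comp_star (X := Z) (Y := Z) f
        change s.norm f * s.norm f ≤ s.norm (f ≫ s.star f)
        rw [h, sq] }
  let na : NormedAlgebra ℂ (End Z) :=
    { (inferInstance : Algebra ℂ (End Z)) with
      norm_smul_le := fun z f => (s.norm_smul (X := Z) (Y := Z) z f).le }
  have sm : StarModule ℂ (End Z) := ⟨fun z f => s.star_smul (X := Z) (Y := Z) z f⟩
  have cs : CompleteSpace (End Z) := by
    refine Metric.complete_of_cauchySeq_tendsto fun f hf => ?_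
    rw [Metric.cauchySeq_iff] at hf
    obtain ⟨l, hl⟩ := s.complete (X := Z) (Y := Z) f (fun ε hε => by
      obtain ⟨n, hn⟩ := hf ε hε
      refine ⟨n, fun m hm k hk => ?_⟩
      have := hn m hm k hk
      rw [dist_eq_norm] at this
      exact this)
    refine ⟨l, ?_⟩
    rw [Metric.tendsto_atTop]
    intro ε hε
    obtain ⟨n, hn⟩ := hl ε hε
    refine ⟨n, fun m hm => ?_⟩
    rw [dist_eq_norm]
    exact hn m hm
  let csa : CStarAlgebra (End Z) :=
    { nr, sr, cs, cr, na, sm with }
  let po : PartialOrder (End Z) := CStarAlgebra.spectralOrder (End Z)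
  have sor : StarOrderedRing (End Z) := CStarAlgebra.spectralOrderedRing (End Z)
  let a' : End Z := a
  have ha' : IsSelfAdjoint a' := ha
  have h1 : a' ≤ algebraMap ℝ (End Z) ‖a'‖ := ha'.le_algebraMap_norm_self
  have h2 : 0 ≤ algebraMap ℝ (End Z) ‖a'‖ - a' := sub_nonneg.mpr h1
  obtain ⟨b, hb⟩ := CStarAlgebra.nonneg_iff_eq_star_mul_self.mp h2
  refine ⟨‖a'‖, b, ?_⟩
  have h3 : algebraMap ℝ (End Z) ‖a'‖ = ((‖a'‖ : ℝ) : ℂ) • 𝟙 Z := by
    rw [Algebra.algebraMap_eq_smul_one]
    rfl
  have h4 : b ≫ s.star b = ((‖a'‖ : ℝ) : ℂ) • 𝟙 Z - a := by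
    rw [← h3]
    exact hb.symm
  rw [h4]
  abel

lemma bdd : s.Bdd := by
  intro Z Z' f
  have h : s.star (f ≫ s.star f) = f ≫ s.star f := by
    rw [s.star_comp, s.star_star]
  exact bdd_end s Z (f ≫ s.star f) h

end bdd

section braid

variable {D : Type u} [Category.{v} D] [Preadditive D] [Linear ℂ D] [MonoidalCategory D]
  [MonoidalPreadditive D] [MonoidalLinear ℂ D] {s : CStarTensorStructure D}

open CStarTensorStructure

/-- The half-braiding on an object of a braided category. -/
def halfBrOf [BraidedCategory D] (X : D) : HalfBr X where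
  c Y := β_ X Y
  nat f := BraidedCategory.braiding_naturality_right X f
  hex Y Z := BraidedCategory.braiding_tensor_right_hom X Y Z

/-- A braiding which is unitary on the pairs whose first member belongs to a list `T` generating
the category is unitary. -/
lemma braiding_unitary_of_list [BraidedCategory D] {r : ℕ} {T : Fin r → D} (hT : s.FinDec T)
    (h : ∀ a (Y : D), s.star (β_ (T a) Y).hom = (β_ (T a) Y).inv) (X Y : D) :
    s.star (β_ X Y).hom = (β_ X Y).inv := by
  obtain ⟨n, b, ι, hι⟩ := hT X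
  have h1 : (β_ X Y).hom = ∑ k, s.star (ι k) ▷ Y ≫ (β_ (T (b k)) Y).hom ≫ Y ◁ ι k := by
    have h2 : (β_ X Y).hom = (∑ k, s.star (ι k) ≫ ι k) ▷ Y ≫ (β_ X Y).hom := by
      rw [hι, id_whiskerRight, Category.id_comp]
    rw [h2, sum_whiskerRight, Preadditive.sum_comp]
    refine Finset.sum_congr rfl fun k _ => ?_
    rw [comp_whiskerRight, Category.assoc, BraidedCategory.braiding_naturality_left]
  have h3 : ∀ k, (β_ (T (b k)) Y).inv ≫ ι k ▷ Y = Y ◁ ι k ≫ (β_ X Y).inv := by
    intro k
    rw [Iso.inv_comp_eq, ← Category.assoc, ← BraidedCategory.braiding_naturality_left,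
      Category.assoc, Iso.hom_inv_id, Category.comp_id]
  rw [h1, s.star_sum]
  have h4 : ∀ k, s.star (s.star (ι k) ▷ Y ≫ (β_ (T (b k)) Y).hom ≫ Y ◁ ι k) =
      Y ◁ (s.star (ι k) ≫ ι k) ≫ (β_ X Y).inv := by
    intro k
    rw [s.star_comp, s.star_comp, s.star_whiskerLeft, s.star_whiskerRight, s.star_star, h,
      Category.assoc, h3, MonoidalCategory.whiskerLeft_comp, Category.assoc]
  simp_rw [h4]
  rw [← Preadditive.sum_comp, ← whiskerLeft_sum, hι, MonoidalCategory.whiskerLeft_id,
    Category.id_comp]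

/-- **A braiding on a rigid semisimple C*-tensor category is unitary.** -/
theorem braiding_unitary [BraidedCategory D] {r : ℕ} {T : Fin r → D} (hT : s.FinDec T)
    (hS : ∀ a, Scal (T a)) (h1 : Scal (𝟙_ D))
    (hd : ∀ Y : D, ∃ Y' : D, Nonempty (ExactPairing Y Y')) (X Y : D) :
    s.star (β_ X Y).hom = (β_ X Y).inv := by
  refine braiding_unitary_of_list hT (fun a Y => ?_) X Y
  obtain ⟨Y', ⟨hY⟩⟩ := hd Y
  exact star_halfBr hT (bdd s) (hS a) h1 (halfBrOf (T a)) (Y := Y) (Y' := Y')

end braid

section transport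

variable {C : Type u} [Category.{v} C] [Abelian C] [Linear ℂ C] [HasFiniteBiproducts C]
  [MonoidalCategory C] [MonoidalPreadditive C] [MonoidalLinear ℂ C] [RigidCategory C]

variable {r : ℕ} {S : Fin r → C}

variable {D : Type u'} [Category.{v} D] [Preadditive D] [Linear ℂ D] [MonoidalCategory D]
  [MonoidalPreadditive D] [MonoidalLinear ℂ D] {s : CStarTensorStructure D}
  (F : D ⥤ C) [F.Monoidal] [F.Additive] [F.Linear ℂ] [F.IsEquivalence]

open CStarTensorStructure

/-- Objects sent to simple objects have only scalar endomorphisms. -/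
lemma scal_of_iso (B₀ : Base S) {T : D} {a : Fin r} (φ : F.obj T ≅ S a) : Scal T := by
  refine ⟨fun f => ⟨B₀.coef a (homEqv F φ φ f), ?_⟩, ?_⟩
  · apply (homEqv F φ φ).injective
    rw [map_smul]
    conv_lhs => rw [B₀.coef_smul a (homEqv F φ φ f)]
    congr 1
    simp [homEqv]
  · intro h
    have h1 : homEqv F φ φ (𝟙 T) = 0 := by rw [h, map_zero]
    have h2 : homEqv F φ φ (𝟙 T) = 𝟙 (S a) := by simp [homEqv]
    have h3 := B₀.coef_id a
    rw [← h2, h1, map_zero] at h3
    exact zero_ne_one h3

include F in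
/-- Orthonormal decompositions exist in a C*-tensor category which is equivalent to a fusion
category. -/
lemma exists_finDec (hC : IsFusionCategory C) (hS : IsSimpleList S) (B₀ : Base S)
    (T : Fin r → D) (φ : ∀ a, F.obj (T a) ≅ S a) : s.FinDec T := by
  classical
  have hscal : ∀ a, Scal (T a) := fun a => scal_of_iso F B₀ (φ a)
  have hfd : ∀ X Y : D, FiniteDimensional ℂ (X ⟶ Y) := by
    intro X Y
    have := hC.finiteDimensional_hom (F.obj X) (F.obj Y)
    exact LinearEquiv.finiteDimensional (homEqv F (Iso.refl (F.obj X)) (Iso.refl (F.obj Y))).symm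
  have horth : ∀ (a b : Fin r), a ≠ b → ∀ f : T a ⟶ T b, f = 0 := by
    intro a b hab f
    apply (homEqv F (φ a) (φ b)).injective
    rw [map_zero]
    exact B₀.hom_zero hab _
  intro X
  have hon := fun c => @exists_onb D _ _ _ _ _ _ s (T c) X (hscal c) (hfd _ _)
  choose n e he' he using hon
  obtain ⟨hX⟩ := exists_hstr hS B₀ hC.semisimple (F.obj X)
  have h1 : ∀ c (v : T c ⟶ X), v ≫ (∑ c, ∑ k, s.star (e c k) ≫ e c k) = v := by
    intro c v
    rw [Preadditive.comp_sum, Finset.sum_eq_single c]
    · rw [Preadditive.comp_sum]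
      conv_rhs => rw [he c v]
      refine Finset.sum_congr rfl fun k _ => ?_
      rw [Category.assoc]
    · intro c' _ hc'
      rw [Preadditive.comp_sum]
      refine Finset.sum_eq_zero fun k _ => ?_
      rw [← Category.assoc, horth c c' (Ne.symm hc') (v ≫ s.star (e c' k)), zero_comp]
    · intro h; exact absurd (Finset.mem_univ _) h
  have htot : ∑ c, ∑ k, s.star (e c k) ≫ e c k = 𝟙 X := by
    apply F.map_injective
    rw [F.map_id]
    set P := ∑ c, ∑ k, s.star (e c k) ≫ e c k with hP
    have h2 : ∀ c (x : S c ⟶ F.obj X), x ≫ F.map P = x := by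
      intro c x
      obtain ⟨y, hy⟩ := F.map_surjective ((φ c).hom ≫ x)
      have h3 := congrArg F.map (h1 c y)
      rw [F.map_comp, hy, Category.assoc] at h3
      exact (cancel_epi _).mp h3
    calc F.map P = 𝟙 _ ≫ F.map P := (Category.id_comp _).symm
      _ = (∑ a, ∑ s, hX.prj a s ≫ hX.inc a s) ≫ F.map P := by rw [hX.total]
      _ = ∑ a, ∑ s, hX.prj a s ≫ hX.inc a s := by
        rw [Preadditive.sum_comp]
        refine Finset.sum_congr rfl fun a _ => ?_
        rw [Preadditive.sum_comp]
        refine Finset.sum_congr rfl fun k _ => ?_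
        rw [Category.assoc, h2]
      _ = 𝟙 _ := hX.total
  -- reindexing
  let ε := Fintype.equivFin (Σ c : Fin r, Fin (n c))
  refine ⟨Fintype.card (Σ c : Fin r, Fin (n c)), fun k => (ε.symm k).1,
    fun k => e (ε.symm k).1 (ε.symm k).2, ?_⟩
  have h3 := Fintype.sum_sigma
    (fun p : Σ c : Fin r, Fin (n c) => s.star (e p.1 p.2) ≫ e p.1 p.2)
  rw [← htot]
  refine Eq.trans ?_ h3
  exact Fintype.sum_equiv ε.symm _ _ fun k => rfl

end transport

end Pool.Agent.U395.BrUn
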