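import Pool.Agent.U395.BrUn1

/-!
# Braided fusion categories with unitary F-matrices are braided-unitary
-/

set_option autoImplicit false
set_option linter.unusedSectionVars false
set_option linter.unusedVariables false

open CategoryTheory CategoryTheory.Limits MonoidalCategory
open Pool.Agent.TH22.UF

namespace Pool.Agent.U395.BrUn

universe v u v' u'

variable {C : Type u} [Category.{v} C] [Abelian C] [Linear ℂ C] [HasFiniteBiproducts C]
  [MonoidalCategory C] [MonoidalPreadditive C] [MonoidalLinear ℂ C] [RigidCategory C]

variable {r : ℕ} {S : Fin r → C}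

/-- The functor is braided for the pulled back braiding. -/
@[instance_reducible]
noncomputable def braidedOf {D : Type u'} [Category.{v'} D] [MonoidalCategory D]
    (F : D ⥤ C) [F.Monoidal] [F.Full] [F.Faithful] [BraidedCategory C] :
    letI := BraidedCategory.ofFullyFaithful F
    F.Braided :=
  letI := BraidedCategory.ofFullyFaithful F
  { braided := fun X Y => by
      change Functor.LaxMonoidal.μ F X Y ≫ F.map (F.preimageIso _).hom = _
      simp }

/-- **A braided fusion category which is unitary as a fusion category is braided-unitary.** -/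
theorem isBraidedUnitary_of_isUnitary [BraidedCategory C] (hC : IsFusionCategory C)
    (hS : IsSimpleList S) (hU : IsUnitary C) : IsBraidedUnitary C := by
  obtain ⟨D, _, _, _, _, s, F, _, _, hFL, hFE⟩ := hU
  have := monoidalPreadditive_of_faithful F
  have := MonoidalLinear.ofFaithful (R := ℂ) F
  let _ : BraidedCategory D := BraidedCategory.ofFullyFaithful F
  let _ : F.Braided := braidedOf F
  refine ⟨D, inferInstance, inferInstance, inferInstance, inferInstance, inferInstance, s, F,
    inferInstance, inferInstance, hFL, hFE, ?_⟩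
  obtain ⟨B₀⟩ := exists_base (S := S) hC.finiteDimensional_hom hS
  let T : Fin r → D := fun a => F.objPreimage (S a)
  let φ : ∀ a, F.obj (T a) ≅ S a := fun a => F.objObjPreimageIso (S a)
  have hT : s.FinDec T := exists_finDec F hC hS B₀ T φ
  obtain ⟨a₀, ⟨e₀⟩⟩ := hS.complete (𝟙_ C) hC.simple_unit
  have h1 : CStarTensorStructure.Scal (𝟙_ D) :=
    scal_of_iso F B₀ ((Functor.Monoidal.εIso F).symm ≪≫ e₀)
  have hd : ∀ Y : D, ∃ Y' : D, Nonempty (ExactPairing Y Y') := by
    intro Y
    let Y' : D := F.objPreimage ((F.obj Y)ᘁ)
    let e : F.obj Y' ≅ (F.obj Y)ᘁ := F.objObjPreimageIso ((F.obj Y)ᘁ)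
    let _ : ExactPairing (F.obj Y) (F.obj Y') := exactPairingCongrRight e
    exact ⟨Y', ⟨ExactPairing.ofFullyFaithful F Y Y'⟩⟩
  exact fun X Y => braiding_unitary hT (fun a => scal_of_iso F B₀ (φ a)) h1 hd X Y

end Pool.Agent.U395.BrUn
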